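import Pool.Agent.NCub.Stmts

/-!
# Squad NC, row TAN: at most 8 tangents through a point
-/

set_option autoImplicit false

namespace Pool.Agent.NCub.H60

open Pool.Agent.OM Pool.Agent.NCub

/-! ### frames -/

theorem cramer_aux {Δ a b e p z u v : ℝ} (hΔ : Δ ≠ 0) (h : Δ * p = a * z + b * u + e * v) :
    p = a / Δ * z + b / Δ * u + e / Δ * v := by
  field_simp
  linarith

theorem frame_ex {z u v : V} (h : det3 z u v ≠ 0) (p : V) :
    ∃ s x y : ℝ, p = s • z + x • u + y • v := by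
  refine ⟨det3 p u v / det3 z u v, det3 z p v / det3 z u v, det3 z u p / det3 z u v, ?_⟩
  apply Prod.ext
  · simp only [Prod.fst_add, Prod.smul_fst, smul_eq_mul]
    refine cramer_aux h ?_
    unfold det3
    ring
  · apply Prod.ext
    · simp only [Prod.fst_add, Prod.snd_add, Prod.smul_fst, Prod.smul_snd, smul_eq_mul]
      refine cramer_aux h ?_
      unfold det3
      ring
    · simp only [Prod.snd_add, Prod.smul_snd, smul_eq_mul]
      refine cramer_aux h ?_
      unfold det3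
      ring

theorem det_y (z u v : V) (s x y : ℝ) : det3 z u (s • z + x • u + y • v) = y * det3 z u v := by
  unfold det3
  simp only [Prod.fst_add, Prod.snd_add, Prod.smul_fst, Prod.smul_snd, smul_eq_mul]
  ring

theorem det_x (z u v : V) (s x y : ℝ) : det3 z (s • z + x • u + y • v) v = x * det3 z u v := by
  unfold det3
  simp only [Prod.fst_add, Prod.snd_add, Prod.smul_fst, Prod.smul_snd, smul_eq_mul]
  ring

theorem det_s (z u v : V) (s x y : ℝ) : det3 (s • z + x • u + y • v) u v = s * det3 z u v := by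
  unfold det3
  simp only [Prod.fst_add, Prod.snd_add, Prod.smul_fst, Prod.smul_snd, smul_eq_mul]
  ring

theorem frame_uniq {z u v : V} (h : det3 z u v ≠ 0) {s x y s' x' y' : ℝ}
    (e : s • z + x • u + y • v = s' • z + x' • u + y' • v) : s = s' ∧ x = x' ∧ y = y' := by
  refine ⟨mul_right_cancel₀ h ?_, mul_right_cancel₀ h ?_, mul_right_cancel₀ h ?_⟩
  · rw [← det_s, e, det_s]
  · rw [← det_x, e, det_x]
  · rw [← det_y, e, det_y]

theorem compl_ex {z : V} (hz : z ≠ 0) : ∃ u v : V, det3 z u v ≠ 0 := by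
  by_cases h1 : z.1 = 0
  · by_cases h2 : z.2.1 = 0
    · have h3 : z.2.2 ≠ 0 := by
        intro h3
        exact hz (Prod.ext h1 (Prod.ext h2 h3))
      refine ⟨(1, 0, 0), (0, 1, 0), ?_⟩
      unfold det3
      simpa using h3
    · refine ⟨(1, 0, 0), (0, 0, 1), ?_⟩
      unfold det3
      simpa using h2
  · refine ⟨(0, 1, 0), (0, 0, 1), ?_⟩
    unfold det3
    simpa using h1

theorem hat_inj {b b' : ℝ × ℝ} {k : ℝ} (h : hat b' = k • hat b) : b' = b := by
  have h1 : (hat b').2.2 = (k • hat b).2.2 := by rw [h]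
  have hk : k = 1 := by
    simpa [hat] using h1.symm
  rw [hk, one_smul] at h
  have e1 : (hat b').1 = (hat b).1 := by rw [h]
  have e2 : (hat b').2.1 = (hat b).2.1 := by rw [h]
  exact Prod.ext e1 e2

/-! ### the form in a frame -/

variable (c : Fin 10 → ℝ)

theorem T_ppz (z u v : V) (s x y : ℝ) :
    T c (s • z + x • u + y • v) (s • z + x • u + y • v) z =
      s ^ 2 * G c z + x ^ 2 * T c z u u + y ^ 2 * T c z v v + 2 * s * x * T c z z u +
        2 * s * y * T c z z v + 2 * x * y * T c z u v := by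
  unfold G
  simp only [T_add_left, T_add_mid, T_smul_left, T_smul_mid]
  rw [T_swap23 c z u z, T_swap23 c z v z, T_swap12 c u z z, T_swap23 c z u z,
    T_swap23 c u u z, T_swap12 c u z u, T_swap23 c u v z, T_swap12 c u z v,
    T_swap12 c v z z, T_swap23 c z v z, T_swap23 c v u z, T_swap12 c v z u, T_swap23 c z v u,
    T_swap23 c v v z, T_swap12 c v z v]
  ring

theorem T_ppu (z u v : V) (s x y : ℝ) :
    T c (s • z + x • u + y • v) (s • z + x • u + y • v) u =
      s ^ 2 * T c z z u + 2 * s * x * T c z u u + 2 * s * y * T c z u v + x ^ 2 * G c u +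
        2 * x * y * T c u u v + y ^ 2 * T c u v v := by
  unfold G
  simp only [T_add_left, T_add_mid, T_smul_left, T_smul_mid]
  rw [T_swap12 c u z u, T_swap23 c z v u, T_swap23 c u v u, T_swap12 c v z u, T_swap23 c z v u,
    T_swap12 c v u u, T_swap23 c u v u, T_swap23 c v v u, T_swap12 c v u v]
  ring

theorem T_pzz (z u v : V) (s x y : ℝ) :
    T c (s • z + x • u + y • v) z z = s * G c z + x * T c z z u + y * T c z z v := by
  unfold G
  simp only [T_add_left, T_smul_left]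
  rw [T_swap12 c u z z, T_swap23 c z u z, T_swap12 c v z z, T_swap23 c z v z]

theorem T_puu (z u v : V) (s x y : ℝ) :
    T c (s • z + x • u + y • v) u u = s * T c z u u + x * G c u + y * T c u u v := by
  unfold G
  simp only [T_add_left, T_smul_left]
  rw [T_swap12 c v u u, T_swap23 c u v u]

theorem T_pzu (z u v : V) (s x y : ℝ) :
    T c (s • z + x • u + y • v) z u = s * T c z z u + x * T c z u u + y * T c z u v := by
  simp only [T_add_left, T_smul_left]
  rw [T_swap12 c u z u, T_swap12 c v z u, T_swap23 c z v u]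

theorem T_zww (z u v : V) (x y : ℝ) :
    T c z (x • u + y • v) (x • u + y • v) =
      x ^ 2 * T c z u u + 2 * x * y * T c z u v + y ^ 2 * T c z v v := by
  simp only [T_add_mid, T_smul_mid, T_add_right, T_smul_right]
  rw [T_swap23 c z v u]
  ring

/-! ### counting directions -/

theorem count_dir {S : Finset (ℝ × ℝ)} (τ : ℝ × ℝ → ℝ) (Q : Polynomial ℝ) (hQ : Q ≠ 0)
    (hr : ∀ b ∈ S, Q.eval (τ b) = 0) (hi : ∀ b ∈ S, ∀ b' ∈ S, τ b = τ b' → b = b') :
    S.card ≤ Q.natDegree := by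
  classical
  have h1 : S.image τ ⊆ Q.roots.toFinset := by
    intro t ht
    obtain ⟨b, hb, rfl⟩ := Finset.mem_image.1 ht
    rw [Multiset.mem_toFinset, Polynomial.mem_roots hQ]
    exact hr b hb
  have h2 : (S.image τ).card = S.card := Finset.card_image_of_injOn fun b hb b' hb' h =>
    hi b hb b' hb' h
  rw [← h2]
  exact (Finset.card_le_card h1).trans ((Multiset.toFinset_card_le _).trans (Q.card_roots'))

theorem card_le_one {S : Finset (ℝ × ℝ)} (h : ∀ b ∈ S, ∀ b' ∈ S, b = b') : S.card ≤ 1 :=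
  Finset.card_le_one.2 h

theorem hat_ne (b : ℝ × ℝ) : hat b ≠ 0 := by
  intro h
  have h1 : (hat b).2.2 = (0 : V).2.2 := by rw [h]
  simp [hat] at h1

/-! ### case `G z ≠ 0` -/

/-- the discriminant form, degree 6 -/
noncomputable def DA (γ a₁ a₂ a₃ g₁ g₂ g₃ g₄ x y : ℝ) : ℝ :=
  4 * (x ^ 2 * a₁ + 2 * x * y * a₂ + y ^ 2 * a₃) ^ 3 +
    γ * (x ^ 3 * g₁ + 3 * x ^ 2 * y * g₂ + 3 * x * y ^ 2 * g₃ + y ^ 3 * g₄) ^ 2

open Polynomial in
/-- the polynomial of the discriminant form -/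
noncomputable def QA (γ a₁ a₂ a₃ g₁ g₂ g₃ g₄ : ℝ) : Polynomial ℝ :=
  4 * (C a₁ * X ^ 2 + C (2 * a₂) * X + C a₃) ^ 3 +
    C γ * (C g₁ * X ^ 3 + C (3 * g₂) * X ^ 2 + C (3 * g₃) * X + C g₄) ^ 2

theorem QA_deg (γ a₁ a₂ a₃ g₁ g₂ g₃ g₄ : ℝ) : (QA γ a₁ a₂ a₃ g₁ g₂ g₃ g₄).natDegree ≤ 6 := by
  unfold QA
  compute_degree

theorem QA_eval (γ a₁ a₂ a₃ g₁ g₂ g₃ g₄ t : ℝ) :
    (QA γ a₁ a₂ a₃ g₁ g₂ g₃ g₄).eval t = DA γ a₁ a₂ a₃ g₁ g₂ g₃ g₄ t 1 := by
  unfold QA DA
  simp
  ring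

theorem DA_hom (γ a₁ a₂ a₃ g₁ g₂ g₃ g₄ x y k : ℝ) :
    DA γ a₁ a₂ a₃ g₁ g₂ g₃ g₄ (k * x) (k * y) = k ^ 6 * DA γ a₁ a₂ a₃ g₁ g₂ g₃ g₄ x y := by
  unfold DA
  ring

theorem DA_zero {γ a₁ a₂ a₃ g₁ g₂ g₃ g₄ : ℝ} (h : QA γ a₁ a₂ a₃ g₁ g₂ g₃ g₄ = 0) (x y : ℝ) :
    DA γ a₁ a₂ a₃ g₁ g₂ g₃ g₄ x y = 0 := by
  have h1 : ∀ t, DA γ a₁ a₂ a₃ g₁ g₂ g₃ g₄ t 1 = 0 := by
    intro t
    rw [← QA_eval, h, Polynomial.eval_zero]
  have h2 : ∀ x y, y ≠ 0 → DA γ a₁ a₂ a₃ g₁ g₂ g₃ g₄ x y = 0 := by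
    intro x y hy
    have h3 := DA_hom γ a₁ a₂ a₃ g₁ g₂ g₃ g₄ (x / y) 1 y
    rw [h1, mul_zero, mul_one, mul_div_cancel₀ x hy] at h3
    exact h3
  by_cases hy : y = 0
  · subst hy
    have e1 := h2 x 1 (by norm_num)
    have e2 := h2 x 2 (by norm_num)
    have e3 := h2 x 3 (by norm_num)
    have e4 := h2 x 4 (by norm_num)
    have e5 := h2 x 5 (by norm_num)
    have e6 := h2 x 6 (by norm_num)
    have e7 := h2 x 7 (by norm_num)
    unfold DA at *
    linear_combination 7 * e1 - 21 * e2 + 35 * e3 - 35 * e4 + 21 * e5 - 7 * e6 + e7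
  · exact h2 x y hy

theorem degen1 {γ a b c d e : ℝ} (hγ : γ ≠ 0) (h : ∀ x y : ℝ,
    4 * (2 * x * y * a + y ^ 2 * b) ^ 3 +
      γ * (3 * x ^ 2 * y * c + 3 * x * y ^ 2 * d + y ^ 3 * e) ^ 2 = 0) :
    c = 0 ∧ a = 0 ∧ d = 0 := by
  have h1 : ∀ y : ℝ, y ≠ 0 →
      4 * y * (2 * a + y * b) ^ 3 + γ * (3 * c + 3 * y * d + y ^ 2 * e) ^ 2 = 0 := by
    intro y hy
    have h2 := h 1 y
    have hy2 : y ^ 2 ≠ 0 := pow_ne_zero 2 hy
    apply mul_left_cancel₀ hy2
    linear_combination h2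
  have e1 := h1 1 (by norm_num)
  have e2 := h1 2 (by norm_num)
  have e3 := h1 3 (by norm_num)
  have e4 := h1 4 (by norm_num)
  have e5 := h1 5 (by norm_num)
  have hc : c = 0 := by
    have h3 : γ * (9 * c ^ 2) = 0 := by
      linear_combination 5 * e1 - 10 * e2 + 10 * e3 - 5 * e4 + e5
    rcases mul_eq_zero.1 h3 with h4 | h4
    · exact absurd h4 hγ
    · have h5 : c ^ 2 = 0 := by linarith
      exact pow_eq_zero_iff (two_ne_zero) |>.1 h5
  subst hc
  have h2 : ∀ y : ℝ, y ≠ 0 → 4 * (2 * a + y * b) ^ 3 + γ * y * (3 * d + y * e) ^ 2 = 0 := by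
    intro y hy
    have h3 := h1 y hy
    apply mul_left_cancel₀ hy
    linear_combination h3
  have f1 := h2 1 (by norm_num)
  have f2 := h2 2 (by norm_num)
  have f3 := h2 3 (by norm_num)
  have f4 := h2 4 (by norm_num)
  have ha : a = 0 := by
    have h3 : a ^ 3 = 0 := by
      linear_combination (1 / 32) * (4 * f1 - 6 * f2 + 4 * f3 - f4)
    exact pow_eq_zero_iff (three_ne_zero) |>.1 h3
  subst ha
  have h3 : ∀ y : ℝ, y ≠ 0 → 4 * b ^ 3 * y ^ 2 + γ * (3 * d + y * e) ^ 2 = 0 := by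
    intro y hy
    have h4 := h2 y hy
    apply mul_left_cancel₀ hy
    linear_combination h4
  have g1 := h3 1 (by norm_num)
  have g2 := h3 2 (by norm_num)
  have g3 := h3 3 (by norm_num)
  have hd : d = 0 := by
    have h4 : γ * (9 * d ^ 2) = 0 := by
      linear_combination 3 * g1 - 3 * g2 + g3
    rcases mul_eq_zero.1 h4 with h5 | h5
    · exact absurd h5 hγ
    · have h6 : d ^ 2 = 0 := by linarith
      exact pow_eq_zero_iff (two_ne_zero) |>.1 h6
  exact ⟨rfl, rfl, hd⟩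

/-- If the discriminant vanishes identically there is at most one point. -/
theorem caseA_deg {z u v : V} (hd : det3 z u v ≠ 0) (hG : G c z ≠ 0) (hu : T c z z u = 0)
    (hv : T c z z v = 0)
    (hD : ∀ x y : ℝ, 4 * (T c z (x • u + y • v) (x • u + y • v)) ^ 3 +
      G c z * (G c (x • u + y • v)) ^ 2 = 0) :
    ∃ w : V, w ≠ 0 ∧ ∀ b : V, NoLine c b → ∃ k : ℝ, w = k • b := by
  -- a zero of the cubic form on the plane
  obtain ⟨θ, hθ⟩ : ∃ θ : ℝ, G c (Real.cos θ • u + Real.sin θ • v) = 0 := by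
    have hcont : Continuous fun θ : ℝ => G c (Real.cos θ • u + Real.sin θ • v) := by
      unfold G T
      fun_prop
    have h0 : G c (Real.cos 0 • u + Real.sin 0 • v) = G c u := by simp
    have hpi : G c (Real.cos Real.pi • u + Real.sin Real.pi • v) = - G c u := by
      have h1 := G_line c (-1) 0 u v
      simp only [Real.cos_pi, Real.sin_pi]
      rw [h1]
      ring
    have h2 := intermediate_value_uIcc (a := (0 : ℝ)) (b := Real.pi) hcont.continuousOn
    have h3 : (0 : ℝ) ∈ Set.uIcc (G c (Real.cos 0 • u + Real.sin 0 • v))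
        (G c (Real.cos Real.pi • u + Real.sin Real.pi • v)) := by
      rw [h0, hpi, Set.mem_uIcc]
      rcases le_total 0 (G c u) with h | h
      · right
        constructor <;> linarith
      · left
        constructor <;> linarith
    obtain ⟨θ, -, hθ⟩ := h2 h3
    exact ⟨θ, hθ⟩
  have hcs : Real.cos θ ^ 2 + Real.sin θ ^ 2 = 1 := Real.cos_sq_add_sin_sq θ
  set p := Real.cos θ with hp
  set q := Real.sin θ with hq
  set w₁ : V := p • u + q • v with hw₁
  set w₂ : V := (-q) • u + p • v with hw₂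
  have hdet : det3 z w₁ w₂ ≠ 0 := by
    have h1 : det3 z w₁ w₂ = (p ^ 2 + q ^ 2) * det3 z u v := by
      rw [hw₁, hw₂]
      unfold det3
      simp only [Prod.fst_add, Prod.snd_add, Prod.smul_fst, Prod.smul_snd, smul_eq_mul]
      ring
    rw [h1, hcs, one_mul]
    exact hd
  have hz1 : T c z z w₁ = 0 := by
    rw [hw₁, T_add_right, T_smul_right, T_smul_right, hu, hv]
    ring
  have hz2 : T c z z w₂ = 0 := by
    rw [hw₂, T_add_right, T_smul_right, T_smul_right, hu, hv]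
    ring
  have hD' : ∀ x y : ℝ, 4 * (T c z (x • w₁ + y • w₂) (x • w₁ + y • w₂)) ^ 3 +
      G c z * (G c (x • w₁ + y • w₂)) ^ 2 = 0 := by
    intro x y
    have h1 : x • w₁ + y • w₂ = (x * p - y * q) • u + (x * q + y * p) • v := by
      rw [hw₁, hw₂]
      module
    rw [h1]
    exact hD _ _
  have hT11 : T c z w₁ w₁ = 0 := by
    have h1 := hD' 1 0
    rw [one_smul, zero_smul, add_zero, hθ] at h1
    have h2 : (T c z w₁ w₁) ^ 3 = 0 := by linarith
    exact pow_eq_zero_iff (three_ne_zero) |>.1 h2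
  obtain ⟨k1, k2, k3⟩ := degen1 (γ := G c z) (a := T c z w₁ w₂) (b := T c z w₂ w₂)
    (c := T c w₁ w₁ w₂) (d := T c w₁ w₂ w₂) (e := G c w₂) hG (by
      intro x y
      have h1 := hD' x y
      rw [T_zww, G_line, hθ, hT11] at h1
      linear_combination h1)
  refine ⟨w₁, ?_, ?_⟩
  · intro h0
    apply hdet
    rw [h0]
    unfold det3
    simp
  · intro b hb
    obtain ⟨s, x, y, hbe⟩ := frame_ex hdet b
    refine hb.2 w₁ ?_ ?_ hθ
    · rw [hbe, T_ppu, hz1, hT11, k2, hθ, k1, k3]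
      ring
    · rw [hbe, T_puu, hT11, hθ, k1]
      ring

theorem caseA {z : V} (hz : z ≠ 0) (hG : G c z ≠ 0) (S : Finset (ℝ × ℝ))
    (hS : ∀ b ∈ S, NoLine c (hat b) ∧ T c (hat b) (hat b) z = 0) : S.card ≤ 7 := by
  classical
  obtain ⟨u₀, v₀, h0⟩ := compl_ex hz
  set u : V := u₀ + (-(T c z z u₀ / G c z)) • z with hu
  set v : V := v₀ + (-(T c z z v₀ / G c z)) • z with hv
  have hzu : T c z z u = 0 := by
    rw [hu, T_add_right, T_smul_right]
    show T c z z u₀ + -(T c z z u₀ / G c z) * G c z = 0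
    field_simp
    ring
  have hzv : T c z z v = 0 := by
    rw [hv, T_add_right, T_smul_right]
    show T c z z v₀ + -(T c z z v₀ / G c z) * G c z = 0
    field_simp
    ring
  have hdet : det3 z u v ≠ 0 := by
    have h1 : det3 z u v = det3 z u₀ v₀ := by
      rw [hu, hv]
      unfold det3
      simp only [Prod.fst_add, Prod.snd_add, Prod.smul_fst, Prod.smul_snd, smul_eq_mul]
      ring
    rw [h1]
    exact h0
  choose s x y hb using fun b : ℝ × ℝ => frame_ex hdet (hat b)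
  -- the two equations
  have e1 : ∀ b ∈ S, s b ^ 2 * G c z + (x b ^ 2 * T c z u u + 2 * x b * y b * T c z u v +
      y b ^ 2 * T c z v v) = 0 := by
    intro b hbS
    have h1 := (hS b hbS).2
    rw [hb b, T_ppz, hzu, hzv] at h1
    linear_combination h1
  have e2 : ∀ b ∈ S, x b ^ 3 * G c u + 3 * x b ^ 2 * y b * T c u u v +
      3 * x b * y b ^ 2 * T c u v v + y b ^ 3 * G c v = 2 * s b ^ 3 * G c z := by
    intro b hbS
    have h1 := (hS b hbS).1.1
    rw [hb b, G_frame, hzu, hzv] at h1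
    linear_combination h1 - 3 * s b * e1 b hbS
  have hDA : ∀ b ∈ S, DA (G c z) (T c z u u) (T c z u v) (T c z v v) (G c u) (T c u u v)
      (T c u v v) (G c v) (x b) (y b) = 0 := by
    intro b hbS
    have h1 : x b ^ 2 * T c z u u + 2 * x b * y b * T c z u v + y b ^ 2 * T c z v v =
        - (s b ^ 2 * G c z) := by linear_combination e1 b hbS
    unfold DA
    rw [h1, e2 b hbS]
    ring
  have hxy : ∀ b ∈ S, ¬ (x b = 0 ∧ y b = 0) := by
    rintro b hbS ⟨hx, hy⟩
    have h1 := e1 b hbS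
    rw [hx, hy] at h1
    have h2 : s b ^ 2 * G c z = 0 := by linear_combination h1
    have h3 : s b = 0 := by
      rcases mul_eq_zero.1 h2 with h | h
      · exact pow_eq_zero_iff (two_ne_zero) |>.1 h
      · exact absurd h hG
    apply hat_ne b
    rw [hb b, hx, hy, h3]
    simp
  have hdir : ∀ b ∈ S, ∀ b' ∈ S, ∀ k : ℝ, x b' = k * x b → y b' = k * y b → b' = b := by
    intro b hbS b' hbS' k hx hy
    have h1 := e2 b' hbS'
    rw [hx, hy] at h1
    have h2 : (s b') ^ 3 = (k * s b) ^ 3 := by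
      apply mul_right_cancel₀ hG
      linear_combination (-1 / 2) * h1 + (k ^ 3 / 2) * e2 b hbS
    have h3 : s b' = k * s b := (Odd.strictMono_pow (by decide : Odd 3)).injective h2
    apply hat_inj (k := k)
    rw [hb b', hb b, h3, hx, hy]
    module
  by_cases hQ : QA (G c z) (T c z u u) (T c z u v) (T c z v v) (G c u) (T c u u v)
      (T c u v v) (G c v) = 0
  · -- degenerate case
    obtain ⟨w, hw, hw'⟩ := caseA_deg c hdet hG hzu hzv (by
      intro X Y
      have h1 := DA_zero hQ X Y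
      unfold DA at h1
      rw [T_zww, G_line]
      linear_combination h1)
    refine (card_le_one ?_).trans (by norm_num)
    intro b hbS b' hbS'
    obtain ⟨k, hk⟩ := hw' (hat b) (hS b hbS).1
    obtain ⟨k', hk'⟩ := hw' (hat b') (hS b' hbS').1
    have hk0 : k ≠ 0 := by
      rintro rfl
      exact hw (by rw [hk, zero_smul])
    apply hat_inj (k := k⁻¹ * k')
    rw [mul_smul, ← hk', hk, smul_smul, inv_mul_cancel₀ hk0, one_smul]
  · have hS1 : (S.filter fun b => y b ≠ 0).card ≤ 6 := by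
      refine (count_dir (fun b => x b / y b) _ hQ ?_ ?_).trans (QA_deg _ _ _ _ _ _ _ _)
      · intro b hb1
        obtain ⟨hbS, hy⟩ := Finset.mem_filter.1 hb1
        rw [QA_eval]
        have h1 := DA_hom (G c z) (T c z u u) (T c z u v) (T c z v v) (G c u) (T c u u v)
          (T c u v v) (G c v) (x b / y b) 1 (y b)
        rw [mul_one, mul_div_cancel₀ (x b) hy, hDA b hbS] at h1
        rcases mul_eq_zero.1 h1.symm with h2 | h2
        · exact absurd (pow_eq_zero_iff (by norm_num) |>.1 h2) hy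
        · exact h2
      · intro b hb1 b' hb1' he
        obtain ⟨hbS, hy⟩ := Finset.mem_filter.1 hb1
        obtain ⟨hbS', hy'⟩ := Finset.mem_filter.1 hb1'
        refine (hdir b hbS b' hbS' (y b' / y b) ?_ ?_).symm
        · have h1 : x b / y b = x b' / y b' := he
          rw [div_eq_div_iff hy hy'] at h1
          field_simp
          linear_combination -h1
        · field_simp
    have hS2 : (S.filter fun b => ¬ y b ≠ 0).card ≤ 1 := by
      refine card_le_one fun b hb1 b' hb1' => ?_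
      obtain ⟨hbS, hy⟩ := Finset.mem_filter.1 hb1
      obtain ⟨hbS', hy'⟩ := Finset.mem_filter.1 hb1'
      rw [not_not] at hy hy'
      have hx : x b ≠ 0 := fun h => hxy b hbS ⟨h, hy⟩
      refine (hdir b hbS b' hbS' (x b' / x b) ?_ ?_).symm
      · field_simp
      · rw [hy, hy', mul_zero]
    have h3 := Finset.card_filter_add_card_filter_not (s := S) (fun b => y b ≠ 0)
    omega

/-! ### case `G z = 0` -/

/-- the discriminant form, degree 4 -/
noncomputable def DB (l₁ l₂ a₁ a₂ a₃ g₁ g₂ g₃ g₄ x y : ℝ) : ℝ :=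
  4 * (x * l₁ + y * l₂) * (x ^ 3 * g₁ + 3 * x ^ 2 * y * g₂ + 3 * x * y ^ 2 * g₃ + y ^ 3 * g₄) -
    3 * (x ^ 2 * a₁ + 2 * x * y * a₂ + y ^ 2 * a₃) ^ 2

open Polynomial in
/-- the polynomial of the discriminant form -/
noncomputable def QB (l₁ l₂ a₁ a₂ a₃ g₁ g₂ g₃ g₄ : ℝ) : Polynomial ℝ :=
  4 * (C l₁ * X + C l₂) * (C g₁ * X ^ 3 + C (3 * g₂) * X ^ 2 + C (3 * g₃) * X + C g₄) -
    3 * (C a₁ * X ^ 2 + C (2 * a₂) * X + C a₃) ^ 2

theorem QB_deg (l₁ l₂ a₁ a₂ a₃ g₁ g₂ g₃ g₄ : ℝ) :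
    (QB l₁ l₂ a₁ a₂ a₃ g₁ g₂ g₃ g₄).natDegree ≤ 4 := by
  unfold QB
  compute_degree

theorem QB_eval (l₁ l₂ a₁ a₂ a₃ g₁ g₂ g₃ g₄ t : ℝ) :
    (QB l₁ l₂ a₁ a₂ a₃ g₁ g₂ g₃ g₄).eval t = DB l₁ l₂ a₁ a₂ a₃ g₁ g₂ g₃ g₄ t 1 := by
  unfold QB DB
  simp
  ring

theorem DB_hom (l₁ l₂ a₁ a₂ a₃ g₁ g₂ g₃ g₄ x y k : ℝ) :
    DB l₁ l₂ a₁ a₂ a₃ g₁ g₂ g₃ g₄ (k * x) (k * y) =
      k ^ 4 * DB l₁ l₂ a₁ a₂ a₃ g₁ g₂ g₃ g₄ x y := by
  unfold DB
  ring

theorem DB_zero {l₁ l₂ a₁ a₂ a₃ g₁ g₂ g₃ g₄ : ℝ} (h : QB l₁ l₂ a₁ a₂ a₃ g₁ g₂ g₃ g₄ = 0)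
    (x y : ℝ) : DB l₁ l₂ a₁ a₂ a₃ g₁ g₂ g₃ g₄ x y = 0 := by
  have h1 : ∀ t, DB l₁ l₂ a₁ a₂ a₃ g₁ g₂ g₃ g₄ t 1 = 0 := by
    intro t
    rw [← QB_eval, h, Polynomial.eval_zero]
  have h2 : ∀ x y, y ≠ 0 → DB l₁ l₂ a₁ a₂ a₃ g₁ g₂ g₃ g₄ x y = 0 := by
    intro x y hy
    have h3 := DB_hom l₁ l₂ a₁ a₂ a₃ g₁ g₂ g₃ g₄ (x / y) 1 y
    rw [h1, mul_zero, mul_one, mul_div_cancel₀ x hy] at h3
    exact h3
  by_cases hy : y = 0
  · subst hy
    have e1 := h2 x 1 (by norm_num)
    have e2 := h2 x 2 (by norm_num)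
    have e3 := h2 x 3 (by norm_num)
    have e4 := h2 x 4 (by norm_num)
    have e5 := h2 x 5 (by norm_num)
    unfold DB at *
    linear_combination 5 * e1 - 10 * e2 + 10 * e3 - 5 * e4 + e5
  · exact h2 x y hy

/-- consequences of the vanishing of the discriminant in an adapted basis -/
theorem degen2 {L a b g₁ g₂ g₃ g₄ : ℝ} (hL : L ≠ 0) (h : ∀ x y : ℝ,
    4 * (y * L) * (x ^ 3 * g₁ + 3 * x ^ 2 * y * g₂ + 3 * x * y ^ 2 * g₃ + y ^ 3 * g₄) -
      3 * (2 * x * y * a + y ^ 2 * b) ^ 2 = 0) :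
    g₁ = 0 ∧ L * g₂ = a ^ 2 ∧ L * g₃ = a * b := by
  have h1 : ∀ y : ℝ, y ≠ 0 →
      4 * L * (g₁ + 3 * y * g₂ + 3 * y ^ 2 * g₃ + y ^ 3 * g₄) - 3 * y * (2 * a + y * b) ^ 2 = 0 := by
    intro y hy
    have h2 := h 1 y
    apply mul_left_cancel₀ hy
    linear_combination h2
  have e1 := h1 1 (by norm_num)
  have e2 := h1 2 (by norm_num)
  have e3 := h1 3 (by norm_num)
  have e4 := h1 4 (by norm_num)
  have hg : g₁ = 0 := by
    have h3 : L * g₁ = 0 := by
      linear_combination (1 / 4) * (4 * e1 - 6 * e2 + 4 * e3 - e4)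
    rcases mul_eq_zero.1 h3 with h4 | h4
    · exact absurd h4 hL
    · exact h4
  subst hg
  have h2 : ∀ y : ℝ, y ≠ 0 →
      4 * L * (3 * g₂ + 3 * y * g₃ + y ^ 2 * g₄) - 3 * (2 * a + y * b) ^ 2 = 0 := by
    intro y hy
    have h3 := h1 y hy
    apply mul_left_cancel₀ hy
    linear_combination h3
  have f1 := h2 1 (by norm_num)
  have f2 := h2 2 (by norm_num)
  have f3 := h2 3 (by norm_num)
  refine ⟨rfl, ?_, ?_⟩
  · linear_combination (1 / 12) * (3 * f1 - 3 * f2 + f3)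
  · linear_combination (1 / 24) * (-5 * f1 + 8 * f2 - 3 * f3)

/-- If the discriminant vanishes identically there is no point off the line of `z`. -/
theorem caseB_deg {z u v : V} (hd : det3 z u v ≠ 0) (hG : G c z = 0)
    (hD : ∀ x y : ℝ, 4 * T c z z (x • u + y • v) * G c (x • u + y • v) -
      3 * (T c z (x • u + y • v) (x • u + y • v)) ^ 2 = 0) {b : V} (hb : NoLine c b)
    (hl : T c b z z ≠ 0) (ht : T c b b z = 0) : False := by
  set l₁ := T c z z u with hl1
  set l₂ := T c z z v with hl2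
  set w₁ : V := l₂ • u + (-l₁) • v with hw₁
  set w₂ : V := l₁ • u + l₂ • v with hw₂
  set L := l₁ ^ 2 + l₂ ^ 2 with hL
  have hL0 : L ≠ 0 := by
    intro h0
    have h1 : l₁ = 0 := by nlinarith [sq_nonneg l₁, sq_nonneg l₂]
    have h2 : l₂ = 0 := by nlinarith [sq_nonneg l₁, sq_nonneg l₂]
    obtain ⟨s, x, y, hbe⟩ := frame_ex hd b
    apply hl
    rw [hbe, T_pzz, ← hl1, ← hl2, h1, h2, hG]
    ring
  have hdet : det3 z w₁ w₂ ≠ 0 := by
    have h1 : det3 z w₁ w₂ = L * det3 z u v := by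
      rw [hw₁, hw₂, hL]
      unfold det3
      simp only [Prod.fst_add, Prod.snd_add, Prod.smul_fst, Prod.smul_snd, smul_eq_mul]
      ring
    rw [h1]
    exact mul_ne_zero hL0 hd
  have hz1 : T c z z w₁ = 0 := by
    rw [hw₁, T_add_right, T_smul_right, T_smul_right, ← hl1, ← hl2]
    ring
  have hz2 : T c z z w₂ = L := by
    rw [hw₂, T_add_right, T_smul_right, T_smul_right, ← hl1, ← hl2, hL]
    ring
  have hD' : ∀ x y : ℝ, 4 * T c z z (x • w₁ + y • w₂) * G c (x • w₁ + y • w₂) -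
      3 * (T c z (x • w₁ + y • w₂) (x • w₁ + y • w₂)) ^ 2 = 0 := by
    intro x y
    have h1 : x • w₁ + y • w₂ = (x * l₂ + y * l₁) • u + (y * l₂ - x * l₁) • v := by
      rw [hw₁, hw₂]
      module
    rw [h1]
    exact hD _ _
  have hT11 : T c z w₁ w₁ = 0 := by
    have h1 := hD' 1 0
    rw [one_smul, zero_smul, add_zero, hz1] at h1
    have h2 : (T c z w₁ w₁) ^ 2 = 0 := by linarith
    exact pow_eq_zero_iff (two_ne_zero) |>.1 h2
  obtain ⟨k1, k2, k3⟩ := degen2 (L := L) (a := T c z w₁ w₂) (b := T c z w₂ w₂)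
    (g₁ := G c w₁) (g₂ := T c w₁ w₁ w₂) (g₃ := T c w₁ w₂ w₂) (g₄ := G c w₂) hL0 (by
      intro x y
      have h1 := hD' x y
      rw [T_zww, G_line, T_add_right, T_smul_right, T_smul_right, hz1, hz2, hT11] at h1
      linear_combination h1)
  obtain ⟨s, x, y, hbe⟩ := frame_ex hdet b
  have hy : y ≠ 0 := by
    rintro rfl
    apply hl
    rw [hbe, T_pzz, hG, hz1, hz2]
    ring
  have ht' : y * T c z w₂ w₂ + 2 * s * L + 2 * x * T c z w₁ w₂ = 0 := by
    have h1 := ht
    rw [hbe, T_ppz, hG, hT11, hz1, hz2] at h1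
    apply mul_left_cancel₀ hy
    linear_combination h1
  have hppu := T_ppu c z w₁ w₂ s x y
  have hpuu := T_puu c z w₁ w₂ s x y
  have hpzu := T_pzu c z w₁ w₂ s x y
  have hpzz := T_pzz c z w₁ w₂ s x y
  rw [← hbe] at hppu hpuu hpzu hpzz
  rw [hz1, hT11, k1] at hppu
  rw [hT11, k1] at hpuu
  rw [hz1, hT11] at hpzu
  rw [hG, hz1, hz2] at hpzz
  obtain ⟨k, hk⟩ := hb.2 ((-(T c z w₁ w₂)) • z + L • w₁) (by
      rw [T_add_right, T_smul_right, T_smul_right, ht, hppu]
      linear_combination (y * T c z w₁ w₂) * ht' + (2 * x * y) * k2 + y ^ 2 * k3) (by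
      rw [T_zww, hpuu, hpzu, hpzz]
      linear_combination (L * y) * k2) (by
      rw [G_line, hG, hz1, hT11, k1]
      ring)
  rw [hbe] at hk
  have e : (-(T c z w₁ w₂)) • z + L • w₁ + (0 : ℝ) • w₂ = (k * s) • z + (k * x) • w₁ + (k * y) • w₂ := by
    rw [zero_smul, add_zero, hk]
    module
  obtain ⟨-, e1, e2⟩ := frame_uniq hdet e
  have hk0 : k = 0 := by
    rcases mul_eq_zero.1 e2.symm with h | h
    · exact h
    · exact absurd h hy
  rw [hk0, zero_mul] at e1
  exact hL0 e1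

theorem caseB {z : V} (hz : z ≠ 0) (hG : G c z = 0) (S : Finset (ℝ × ℝ))
    (hS : ∀ b ∈ S, NoLine c (hat b) ∧ T c (hat b) (hat b) z = 0) : S.card ≤ 6 := by
  classical
  obtain ⟨u, v, hdet⟩ := compl_ex hz
  choose s x y hb using fun b : ℝ × ℝ => frame_ex hdet (hat b)
  have e1 : ∀ b ∈ S, (x b ^ 2 * T c z u u + 2 * x b * y b * T c z u v +
      y b ^ 2 * T c z v v) + 2 * s b * (x b * T c z z u + y b * T c z z v) = 0 := by
    intro b hbS
    have h1 := (hS b hbS).2
    rw [hb b, T_ppz, hG] at h1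
    linear_combination h1
  have e2 : ∀ b ∈ S, x b ^ 3 * G c u + 3 * x b ^ 2 * y b * T c u u v +
      3 * x b * y b ^ 2 * T c u v v + y b ^ 3 * G c v =
        3 * s b ^ 2 * (x b * T c z z u + y b * T c z z v) := by
    intro b hbS
    have h1 := (hS b hbS).1.1
    rw [hb b, G_frame, hG] at h1
    linear_combination h1 - 3 * s b * e1 b hbS
  have hDB : ∀ b ∈ S, DB (T c z z u) (T c z z v) (T c z u u) (T c z u v) (T c z v v) (G c u)
      (T c u u v) (T c u v v) (G c v) (x b) (y b) = 0 := by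
    intro b hbS
    have h1 : x b ^ 2 * T c z u u + 2 * x b * y b * T c z u v + y b ^ 2 * T c z v v =
        - (2 * s b * (x b * T c z z u + y b * T c z z v)) := by linear_combination e1 b hbS
    unfold DB
    rw [h1, e2 b hbS]
    ring
  have hl : ∀ b ∈ S, ¬ (x b = 0 ∧ y b = 0) → x b * T c z z u + y b * T c z z v ≠ 0 := by
    intro b hbS hne h0
    have h1 : T c (hat b) z z = 0 := by
      rw [hb b, T_pzz, hG]
      linear_combination h0
    obtain ⟨k, hk⟩ := (hS b hbS).1.2 z (hS b hbS).2 h1 hG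
    rw [hb b] at hk
    have e : (1 : ℝ) • z + (0 : ℝ) • u + (0 : ℝ) • v =
        (k * s b) • z + (k * x b) • u + (k * y b) • v := by
      rw [one_smul, zero_smul, zero_smul, add_zero, add_zero]
      nth_rewrite 1 [hk]
      module
    obtain ⟨a1, a2, a3⟩ := frame_uniq hdet e
    have hk0 : k ≠ 0 := by
      rintro rfl
      rw [zero_mul] at a1
      exact one_ne_zero a1
    exact hne ⟨(mul_eq_zero.1 a2.symm).resolve_left hk0, (mul_eq_zero.1 a3.symm).resolve_left hk0⟩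
  have hdir : ∀ b ∈ S, ∀ b' ∈ S, ¬ (x b = 0 ∧ y b = 0) → ¬ (x b' = 0 ∧ y b' = 0) → ∀ k : ℝ,
      x b' = k * x b → y b' = k * y b → b' = b := by
    intro b hbS b' hbS' hne hne' k hx hy
    have h1 := e1 b' hbS'
    rw [hx, hy] at h1
    have hl0 := hl b hbS hne
    have hk0 : k ≠ 0 := by
      rintro rfl
      rw [zero_mul] at hx hy
      exact hne' ⟨hx, hy⟩
    have h3 : s b' = k * s b := by
      apply mul_right_cancel₀ (mul_ne_zero (mul_ne_zero two_ne_zero hk0) hl0)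
      linear_combination h1 - k ^ 2 * e1 b hbS
    apply hat_inj (k := k)
    rw [hb b', hb b, h3, hx, hy]
    module
  have hS0 : (S.filter fun b => x b = 0 ∧ y b = 0).card ≤ 1 := by
    refine card_le_one fun b hb1 b' hb1' => ?_
    obtain ⟨hbS, hx, hy⟩ := Finset.mem_filter.1 hb1
    obtain ⟨hbS', hx', hy'⟩ := Finset.mem_filter.1 hb1'
    have hs : s b ≠ 0 := by
      intro h0
      apply hat_ne b
      rw [hb b, hx, hy, h0]
      simp
    symm
    apply hat_inj (k := s b' / s b)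
    rw [hb b', hb b, hx, hy, hx', hy']
    have h1 : s b' = s b' / s b * s b := by field_simp
    nth_rewrite 1 [h1]
    module
  by_cases hQ : QB (T c z z u) (T c z z v) (T c z u u) (T c z u v) (T c z v v) (G c u)
      (T c u u v) (T c u v v) (G c v) = 0
  · have hD : ∀ X Y : ℝ, 4 * T c z z (X • u + Y • v) * G c (X • u + Y • v) -
        3 * (T c z (X • u + Y • v) (X • u + Y • v)) ^ 2 = 0 := by
      intro X Y
      have h1 := DB_zero hQ X Y
      unfold DB at h1
      rw [T_zww, G_line, T_add_right, T_smul_right, T_smul_right]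
      linear_combination h1
    have h1 : S.filter (fun b => x b = 0 ∧ y b = 0) = S := by
      refine Finset.filter_true_of_mem fun b hbS => ?_
      by_contra hne
      refine caseB_deg c hdet hG hD (hS b hbS).1 ?_ (hS b hbS).2
      rw [hb b, T_pzz, hG]
      intro h0
      exact hl b hbS hne (by linear_combination h0)
    rw [h1] at hS0
    omega
  · have hS1 : ((S.filter fun b => ¬ (x b = 0 ∧ y b = 0)).filter fun b => y b ≠ 0).card ≤ 4 := by
      refine (count_dir (fun b => x b / y b) _ hQ ?_ ?_).trans (QB_deg _ _ _ _ _ _ _ _ _)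
      · intro b hb1
        obtain ⟨hb2, hy⟩ := Finset.mem_filter.1 hb1
        obtain ⟨hbS, -⟩ := Finset.mem_filter.1 hb2
        rw [QB_eval]
        have h1 := DB_hom (T c z z u) (T c z z v) (T c z u u) (T c z u v) (T c z v v) (G c u)
          (T c u u v) (T c u v v) (G c v) (x b / y b) 1 (y b)
        rw [mul_one, mul_div_cancel₀ (x b) hy, hDB b hbS] at h1
        rcases mul_eq_zero.1 h1.symm with h2 | h2
        · exact absurd (pow_eq_zero_iff (by norm_num) |>.1 h2) hy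
        · exact h2
      · intro b hb1 b' hb1' he
        obtain ⟨hb2, hy⟩ := Finset.mem_filter.1 hb1
        obtain ⟨hbS, hne⟩ := Finset.mem_filter.1 hb2
        obtain ⟨hb2', hy'⟩ := Finset.mem_filter.1 hb1'
        obtain ⟨hbS', hne'⟩ := Finset.mem_filter.1 hb2'
        refine (hdir b hbS b' hbS' hne hne' (y b' / y b) ?_ ?_).symm
        · have h1 : x b / y b = x b' / y b' := he
          rw [div_eq_div_iff hy hy'] at h1
          field_simp
          linear_combination -h1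
        · field_simp
    have hS2 : ((S.filter fun b => ¬ (x b = 0 ∧ y b = 0)).filter fun b => ¬ y b ≠ 0).card ≤ 1 := by
      refine card_le_one fun b hb1 b' hb1' => ?_
      obtain ⟨hb2, hy⟩ := Finset.mem_filter.1 hb1
      obtain ⟨hbS, hne⟩ := Finset.mem_filter.1 hb2
      obtain ⟨hb2', hy'⟩ := Finset.mem_filter.1 hb1'
      obtain ⟨hbS', hne'⟩ := Finset.mem_filter.1 hb2'
      rw [not_not] at hy hy'
      have hx : x b ≠ 0 := fun h => hne ⟨h, hy⟩
      refine (hdir b hbS b' hbS' hne hne' (x b' / x b) ?_ ?_).symm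
      · field_simp
      · rw [hy, hy', mul_zero]
    have h3 := Finset.card_filter_add_card_filter_not (s := S) (fun b => x b = 0 ∧ y b = 0)
    have h4 := Finset.card_filter_add_card_filter_not
      (s := S.filter fun b => ¬ (x b = 0 ∧ y b = 0)) (fun b => y b ≠ 0)
    omega

theorem tan : TANStmt := by
  intro c z hz S hS
  by_cases hG : G c z = 0
  · exact (caseB c hz hG S hS).trans (by norm_num)
  · exact (caseA c hz hG S hS).trans (by norm_num)

end Pool.Agent.NCub.H60
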